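import Mathlib
import Pool.Agent.W5h35.CU.Fin

/-!
# Beilinson's conjecture in the degrees `i = 3` and `i = 5`: diagonal cubic hypersurfaces

For `n = 3` and `n = 5` let `X_D ⊂ P^{n+1}` be the cubic hypersurface
`D x₀³ + x₁³ + … + x_{n+1}³ = 0` over `ℚ`, of dimension `n`; these are the two odd dimensions `> 1`
in which the middle cohomology `Hⁿ` of a cubic hypersurface has level one.  Here `i = n` and
`m = (n + 1) / 2`.

* At every prime `p ∤ 3 D` and for all powers of `p` the points of `X_D` are counted: the Euler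
  factor of `L(Hⁿ(X_D), s)` is the product of those of `L(E_D, s - (n-1)/2)` to the power `4`
  (`15` for `n = 5`) and of `L(E_{D²}, s - (n-1)/2)` to the power `1` (`6` for `n = 5`), where
  `E_D` is the elliptic curve `y² + D y = x³`, which is `3`-isogenous to `x³ + y³ = D`.  This
  includes `p = 2`.  At the primes `p ∣ 3 D` the Euler factor of `Hⁿ(X_D)` is `1` (additive
  reduction), so that the product over `p ∤ 3 D` is the whole `L`-function.
* For all `D` of the class of `CubicTwistsCubeFree` (cube-free, prime to `3`, not `±1` modulo `9`,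
  exactly one prime factor `2` modulo `3`) with `E_D(ℚ)` finite and `Ш(E_D)[3^∞] = 0`, exactly
  `56.01… %` of the class, the function `L(Hⁿ(X_D), s)` is entire and not zero at `s = m`, and
  `E_D(ℚ)` and `E_{D²}(ℚ)` are finite.  As `V^m = CH^m(X_D)⁰ ⊗ ℚ` is the group of rational points
  of the intermediate Jacobian tensored with `ℚ` (a known theorem, not part of the Lean statement),
  and the intermediate Jacobian is isogenous to `E_D⁴ × E_{D²}` (`E_D¹⁵ × E_{D²}⁶`), the space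
  `V^m` is zero, and the parts (i), (ii), (iii) of the conjecture hold for `X_D` and `i = n`.

The new input is the point count over all finite fields (Hasse–Davenport for `p = 1` modulo `3`, the
pure Gauss sums for `p = 2` modulo `3`) and the symmetry `D ↦ D* = rad(D)³ / D` of the class and of
its splitting condition.  The values `L(E_D, 1)` are those of the starting files
`Pool/Agent/Y703/CT/*.lean` and `Pool/Agent/R419/CF/*.lean`.
-/

set_option autoImplicit false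

open scoped Classical LinearAlgebra.Projectivization

namespace Pool.Agent.Results.MP_29b22a_nt.CubicThreefoldsFivefolds

/-- the number of points over the field with `p ^ k` elements of the hypersurface
`X_D : D x₀³ + x₁³ + … + x_{n+1}³ = 0` in the projective space of dimension `n + 1` -/
noncomputable def pts (n : ℕ) (D : ℤ) (p : ℕ) [Fact p.Prime] (k : ℕ) : ℕ :=
  Nat.card {P : ℙ (GaloisField p k) (Fin (n + 2) → GaloisField p k) //
    (D : GaloisField p k) * P.rep 0 ^ 3 + ∑ i : Fin (n + 1), P.rep i.succ ^ 3 = 0}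

/-- the trace of the `k`-th power of the Frobenius on `Hⁿ(X_D)` for odd `n` and good `p`, by the
Lefschetz trace formula: `1 + p^k + … + p^{nk} - #X_D(F_{p^k})` -/
noncomputable def tr (n : ℕ) (D : ℤ) (p : ℕ) [Fact p.Prime] (k : ℕ) : ℤ :=
  ∑ j ∈ Finset.range (n + 1), ((p : ℤ) ^ k) ^ j - pts n D p k

/-- the terms of the logarithm of the Euler factor
`det(1 - Frob p^{-s} | Hⁿ(X_D))⁻¹ = exp (∑_{k ≥ 1} tr(k) p^{-ks} / k)` -/
noncomputable def term (n : ℕ) (D : ℤ) (p : ℕ) [Fact p.Prime] (s : ℂ) (k : ℕ) : ℂ :=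
  (tr n D p (k + 1) : ℂ) * ((p : ℂ) ^ (-s)) ^ (k + 1) / ((k + 1 : ℕ) : ℂ)

/-- `F` is an entire function which equals the Euler product of `Hⁿ(X_D)` over the primes
`p ∤ 3 D` on `Re s > n / 2 + 1` -/
def IsL (n D : ℕ) (F : ℂ → ℂ) : Prop :=
  Differentiable ℂ F ∧ ∀ s : ℂ, (n : ℝ) / 2 + 1 < s.re →
    (∀ p : {p : ℕ // p.Prime ∧ ¬ p ∣ 3 * D}, haveI := Fact.mk p.2.1; Summable (term n D p.1 s)) ∧
    HasProd (fun p : {p : ℕ // p.Prime ∧ ¬ p ∣ 3 * D} =>
      haveI := Fact.mk p.2.1; Complex.exp (∑' k, term n D p.1 s k)) (F s)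

/-- the Euler factor at `p` of the elliptic curve `E_D : y² + D y = x³`, at `s` -/
noncomputable def ell (D : ℤ) (p : ℕ) (s : ℂ) : ℂ :=
  (1 - (((p : ℤ) - (Nat.card {q : ZMod p × ZMod p //
    q.2 ^ 2 + (D : ZMod p) * q.2 = q.1 ^ 3} : ℤ) : ℤ) : ℂ) * (p : ℂ) ^ (-s) +
    (p : ℂ) ^ (1 - 2 * s))⁻¹

/-- the class: `D` cube-free, prime to `3`, not `±1` modulo `9`, exactly one prime factor
congruent to `2` modulo `3` -/
def Class (D : ℕ) : Prop :=
  D ≠ 0 ∧ (∀ p : ℕ, p.Prime → ¬ p ^ 3 ∣ D) ∧ ¬ 3 ∣ D ∧ D % 9 ≠ 1 ∧ D % 9 ≠ 8 ∧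
    ∃ q : ℕ, q.Prime ∧ q % 3 = 2 ∧ q ∣ D ∧ ∀ p : ℕ, p.Prime → p ∣ D → p ≠ q → p % 3 = 1

/-- the curve `E_D : y² + D y = x³` over `ℚ` -/
def E (D : ℕ) : WeierstrassCurve ℚ := { a₁ := 0, a₂ := 0, a₃ := (D : ℚ), a₄ := 0, a₆ := 0 }

/-- `E_D(ℚ)` is finite and `Ш(E_D/ℚ)[3^∞] = 0` -/
def TrivialThree (D : ℕ) : Prop :=
  Finite (E D).toAffine.Point ∧
    ∀ (n : ℕ) (x : Pool.Agent.TH841.SH.D.Sha (E D)), 3 ^ n • x = 0 → x = 0

/-- the parts (i), (ii), (iii) for `Hⁿ(X_D)`: the entire `L`-function exists, it is not zero at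
`s = (n + 1) / 2` -/
def NonVanishing (n D : ℕ) : Prop :=
  (∃ F : ℂ → ℂ, IsL n D F) ∧ ∀ F : ℂ → ℂ, IsL n D F → F (((n : ℂ) + 1) / 2) ≠ 0

theorem E_eq (D : ℕ) : Pool.Agent.Y703.CT.EQ (Pool.Agent.Y703.CT.WD D) = E D := by
  unfold Pool.Agent.Y703.CT.EQ Pool.Agent.Y703.CT.WD E WeierstrassCurve.map
  simp

theorem three_iff (D : ℕ) : TrivialThree D ↔ Pool.Agent.Y703.CT.Triv3 D := by
  unfold TrivialThree Pool.Agent.Y703.CT.Triv3
  rw [E_eq]

theorem class_iff (D : ℕ) : Class D ↔ Pool.Agent.Y703.CT.Cls D := by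
  unfold Class Pool.Agent.Y703.CT.Cls Pool.Agent.Y703.CT.Base
  constructor
  · rintro ⟨h1, h2, h3, h4, h5, h6⟩
    exact ⟨⟨h1, h3, h2⟩, h4, h5, h6⟩
  · rintro ⟨⟨h1, h3, h2⟩, h4, h5, h6⟩
    exact ⟨h1, h2, h3, h4, h5, h6⟩

theorem ell_eq (D : ℤ) (p : ℕ) (s : ℂ) : ell D p s = Pool.Agent.W5h35.CU.ell D p s := by
  unfold ell Pool.Agent.W5h35.CU.ell Pool.Agent.W97.MT.ap Pool.Agent.W97.MT.affCount
  have : Nat.card {q : ZMod p × ZMod p // q.2 ^ 2 + (D : ZMod p) * q.2 = q.1 ^ 3} =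
      Nat.card {P : ZMod p × ZMod p // ((Pool.Agent.Y703.CT.WD D).map
        (Int.castRingHom (ZMod p))).toAffine.Equation P.1 P.2} := by
    refine Nat.card_congr (Equiv.subtypeEquivRight fun q => ?_)
    exact (Pool.Agent.Y703.CX.eqn_iff D q.1 q.2).symm
  rw [this]

/-- the Euler factors of the hypersurfaces -/
theorem euler (D p : ℕ) (hp : p.Prime) (h : ¬ p ∣ 3 * D) (s : ℂ) :
    haveI := Fact.mk hp
    ((3 : ℝ) / 2 < s.re → Summable (term 3 D p s) ∧ Complex.exp (∑' k, term 3 D p s k) =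
      ell D p (s - 1) ^ 4 * ell ((D : ℤ) ^ 2) p (s - 1)) ∧
    ((5 : ℝ) / 2 < s.re → Summable (term 5 D p s) ∧ Complex.exp (∑' k, term 5 D p s k) =
      ell D p (s - 2) ^ 15 * ell ((D : ℤ) ^ 2) p (s - 2) ^ 6) := by
  haveI := Fact.mk hp
  have h' := Pool.Agent.W5h35.CU.euler (p := p) (D := (D : ℤ)) (s := s)
    (fun h1 => h (Pool.Agent.W5h35.CU.dvd_cast.1 h1))
  simp only [ell_eq]
  unfold Pool.Agent.W5h35.CU.ell
  constructor
  · intro hs
    have := h'.1 hs
    rw [pow_one] at this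
    exact this
  · intro hs
    exact h'.2 hs

theorem main {D : ℕ} (hC : Class D) (hT : TrivialThree D) :
    NonVanishing 3 D ∧ NonVanishing 5 D ∧
      {q : ℚ × ℚ | q.2 ^ 2 + (D : ℚ) * q.2 = q.1 ^ 3}.Finite ∧
      {q : ℚ × ℚ | q.2 ^ 2 + (D : ℚ) ^ 2 * q.2 = q.1 ^ 3}.Finite := by
  have hC' := (class_iff D).1 hC
  have hT' := (three_iff D).1 hT
  have h0 : D ≠ 0 := hC'.1.1
  have hCF : Pool.Agent.W5h35.CU.CF D := hC'.1.2.2
  obtain ⟨⟨f, hf, hf1⟩, ⟨g, hg, hg1⟩, hfin⟩ := Pool.Agent.W5h35.CU.both hC' hT'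
  have key : ∀ (n m M N : ℕ), n = 2 * m + 1 →
      (∀ (p : {p : ℕ // p.Prime ∧ ¬ p ∣ 3 * D}) (s : ℂ), (n : ℝ) / 2 + 1 < s.re →
        haveI := Fact.mk p.2.1
        Summable (term n D p.1 s) ∧ Complex.exp (∑' k, term n D p.1 s k) =
          ell D p.1 (s - m) ^ M * ell ((D : ℤ) ^ 2) p.1 (s - m) ^ N) → NonVanishing n D := by
    intro n m M N hn he
    have hL : IsL n D (fun s => f (s - m) ^ M * g (s - m) ^ N) := by
      constructor
      · have h1 : Differentiable ℂ fun s : ℂ => f (s - m) :=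
          hf.1.comp (differentiable_id.sub_const _)
        have h2 : Differentiable ℂ fun s : ℂ => g (s - m) :=
          hg.1.comp (differentiable_id.sub_const _)
        exact (h1.pow M).mul (h2.pow N)
      · intro s hs
        refine ⟨fun p => (he p s hs).1, ?_⟩
        have hs' : (m : ℝ) + 3 / 2 < s.re := by
          rw [hn] at hs
          push_cast at hs
          linarith
        refine (Pool.Agent.W5h35.CU.prod_all h0 hCF hf hg m M N hs').congr_fun ?_
        intro p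
        rw [(he p s hs).2, ell_eq, ell_eq]
    refine ⟨⟨_, hL⟩, ?_⟩
    intro G hG
    have e : G = fun s => f (s - m) ^ M * g (s - m) ^ N :=
      Pool.Agent.W5h35.CU.unique_f hG.1 hL.1 (fun s hs => (hG.2 s hs).2)
        (fun s hs => (hL.2 s hs).2)
    have e1 : ((n : ℂ) + 1) / 2 - m = 1 := by
      rw [hn]
      push_cast
      ring
    rw [e]
    simp only
    rw [e1]
    exact mul_ne_zero (pow_ne_zero _ hf1) (pow_ne_zero _ hg1)
  refine ⟨key 3 1 4 1 (by norm_num) ?_, key 5 2 15 6 (by norm_num) ?_, ?_, ?_⟩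
  · intro p s hs
    have := (euler D p.1 p.2.1 p.2.2 s).1 (by push_cast at hs; linarith)
    rw [pow_one, Nat.cast_one]
    exact this
  · intro p s hs
    have := (euler D p.1 p.2.1 p.2.2 s).2 (by push_cast at hs; linarith)
    rw [Nat.cast_ofNat]
    exact this
  · have := Pool.Agent.W5h35.CU.fin_aff (D := (D : ℤ)) (by exact_mod_cast h0) hT'.1
    simpa using this
  · exact Pool.Agent.W5h35.CU.fin_sq h0 hCF hfin

theorem result :
    -- the Euler factors of `H³` and `H⁵` of all diagonal cubics `X_D`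
    (∀ (D p : ℕ) (hp : p.Prime), ¬ p ∣ 3 * D → ∀ s : ℂ, haveI := Fact.mk hp
      ((3 : ℝ) / 2 < s.re → Summable (term 3 D p s) ∧ Complex.exp (∑' k, term 3 D p s k) =
        ell D p (s - 1) ^ 4 * ell ((D : ℤ) ^ 2) p (s - 1)) ∧
      ((5 : ℝ) / 2 < s.re → Summable (term 5 D p s) ∧ Complex.exp (∑' k, term 5 D p s k) =
        ell D p (s - 2) ^ 15 * ell ((D : ℤ) ^ 2) p (s - 2) ^ 6)) ∧
    -- the parts (i), (ii), (iii) for the `D` of the class with `Ш(E_D)[3^∞] = 0`, `E_D(ℚ)` finite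
    (∀ D : ℕ, Class D → TrivialThree D → NonVanishing 3 D ∧ NonVanishing 5 D ∧
      {q : ℚ × ℚ | q.2 ^ 2 + (D : ℚ) * q.2 = q.1 ^ 3}.Finite ∧
      {q : ℚ × ℚ | q.2 ^ 2 + (D : ℚ) ^ 2 * q.2 = q.1 ^ 3}.Finite) ∧
    -- their exact proportion in the class, and the size of the class
    (∃ c : ℝ, 0 < c ∧ ∃ X₀ : ℕ, ∀ X : ℕ, X₀ ≤ X →
      c * X / Real.sqrt (Real.log X) ≤ (((Finset.Icc 1 X).filter fun D => Class D).card : ℝ)) ∧
    (0.56 : ℝ) < ∏' i : ℕ, (1 - (1 / 3 : ℝ) ^ (i + 1)) ∧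
    Filter.Tendsto (fun X : ℕ =>
        (((Finset.Icc 1 X).filter fun D => Class D ∧ TrivialThree D).card : ℝ) /
        (((Finset.Icc 1 X).filter fun D => Class D).card : ℝ)) Filter.atTop
      (nhds (∏' i : ℕ, (1 - (1 / 3 : ℝ) ^ (i + 1)))) := by
  have e2 : ∀ X : ℕ, (Finset.Icc 1 X).filter (fun D => Class D) =
      (Finset.Icc 1 X).filter fun D => Pool.Agent.Y703.CT.Cls D := by
    intro X
    refine Finset.filter_congr fun D _ => ?_
    rw [class_iff]
  refine ⟨fun D p hp h s => euler D p hp h s, fun D hC hT => main hC hT, ?_,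
    Pool.Agent.Y461.CX.t_C3.2.2.2, ?_⟩
  · simp only [e2]
    exact Pool.Agent.R419.CF.low
  · have h := Pool.Agent.R419.CF.t_FIN
    unfold Pool.Agent.Y703.CX.c3 at h
    have e1 : ∀ X : ℕ, (Finset.Icc 1 X).filter (fun D => Class D ∧ TrivialThree D) =
        (Finset.Icc 1 X).filter fun D => Pool.Agent.Y703.CT.Cls D ∧
          Pool.Agent.Y703.CT.NoSplit D := by
      intro X
      refine Finset.filter_congr fun D _ => ?_
      rw [← class_iff]
      refine and_congr_right fun hC => ?_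
      have hC' := (class_iff D).1 hC
      obtain ⟨-, f, -, u, -, -, -, h2⟩ := Pool.Agent.Y703.CT.fin_all hC'
      exact (three_iff D).trans h2
    simp only [e1, e2]
    exact h

end Pool.Agent.Results.MP_29b22a_nt.CubicThreefoldsFivefolds
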