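import Pool.Agent.W5h93.EX.CentralMain

/-!
# Beilinson's conjecture on central values and the cubic hypersurfaces `T(x, y, z) = 1`

For a smooth projective variety `X` over `ℚ` and `m ≥ 1` let `δ(X)(m) ∈ ℤ × ℂˣ / ℚˣ` be the pair of the
difference between the order of `L(H^(2m-1)(X), s)` at `s = m` and the dimension of `CH^m(X)⁰ ⊗ ℚ`, and
of the quotient of the leading coefficient by `det Π · det ⟨ , ⟩` modulo `ℚˣ`. The parts (iii) and (iv)
of the conjecture for `X` say that `δ(X) = 0`. The invariant `∑ δ(X)(m) L^m` is compatible with
blow-ups: the blow-up of `X` in `Z` of codimension `r` has the invariant `δ(X) + (L + … + L^(r-1)) δ(Z)`.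
Hence it extends, by the theorem of Bittner, to an additive invariant of all separated schemes of finite
type over `ℚ`.

The parts (iii) and (iv) of the conjecture for all varieties of dimension at most `n` are equivalent to
`δ = 0` for the smooth affine cubic hypersurfaces `T(x, y, z) = 1` over `ℚ`, of arbitrary dimension,
where `T` is a trilinear form one of whose three blocks of variables has at most `n + 2` variables. For
`n = 1` the varieties are the curves over all number fields, and the conjecture is the conjecture of
Birch and Swinnerton-Dyer for their Jacobians, up to rational factors. In all dimensions the trilinear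
forms with coefficients `0` and `1` are enough: the conjecture for all smooth projective varieties over
`ℚ` is equivalent to `δ = 0` for the hypersurfaces `∑_{(i, j, k) ∈ H} x_i y_j z_k = 1` of the tripartite
hypergraphs `H`.
-/

set_option autoImplicit false

open CategoryTheory AlgebraicGeometry Pool.Agent.Y116.UV Pool.Agent.W5h93.EV Pool.Agent.W5h93.EX

universe w

namespace Pool.Agent.Results.MP_29b22a_nt.HypergraphHypersurfaces

/-- **Beilinson's conjecture on central values and trilinear forms.** -/
theorem result (D : CentralData.{w}) (Q : Sch ℚ → Prop) (hQ : IsClass Q)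
    (δ : Sch ℚ → ℤ → ℤ × Additive Ratio) (hδ : D.IsDefect Q δ) :
    (∀ n, ForForms (Zero δ) (n + 2) → ForClass Q D.Beilinson n) ∧
    (ForGraphs ℚ (Zero δ) → ∀ X, Q X → D.Beilinson X) ∧
    (∀ n, ModelsIn Q n → (ForClass Q D.Beilinson n ↔ ForForms (Zero δ) (n + 2))) ∧
    ((∀ n, ModelsIn Q n) → ((∀ X, Q X → D.Beilinson X) ↔ ForGraphs ℚ (Zero δ))) := by
  have hB := bnd_additive hδ.additive
  refine ⟨fun n h X hX hd => (beilinson_iff hδ hX).mpr (dim_of_forms hB h X (hQ.ft hX) hd),
    fun h X hX => (beilinson_iff hδ hX).mpr (universal_graph presents_rat hB.toUni h X (hQ.ft hX)),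
    fun n hM => ?_, fun hM => ?_⟩
  · refine Iff.trans ?_ (class_iff hB hQ hM)
    exact forall_congr' fun X => forall_congr' fun hX => forall_congr' fun _ => beilinson_iff hδ hX
  · refine Iff.trans ?_ (graph_iff hB hQ hM)
    exact forall_congr' fun X => forall_congr' fun hX => beilinson_iff hδ hX

end Pool.Agent.Results.MP_29b22a_nt.HypergraphHypersurfaces
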