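import Mathlib
import Pool.Agent.W5h36.TQ.Final

/-!
# Beilinson's conjecture in the degree `i = 3`: intersections of two quadrics

Let `X ⊂ P^{2m-1}` be the intersection of the quadrics `xᵀ A x = 0` and `xᵀ B x = 0`, of odd dimension
`n = 2m - 3`.

* Over a finite field `K` with `q` elements, `q` odd, such that all the members of the pencil have
  rank at least `2m - 1`, the trace of the Frobenius on `Hⁿ(X)` is `q ^ (m - 2)` times the trace on
  `H¹(C)`, where `C : y² = (-1)^m det (x A + z B)` is the discriminant curve, of genus `m - 1`.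
* Let `m = 3` (threefolds in `P⁵`), and suppose that the discriminant curve over `ℚ` is bielliptic,
  `- det (x A + z B) = α x⁶ + β x⁴ z² + γ x² z⁴ + δ z⁶`. Then for all primes
  `p ∤ 2 α δ disc (α t³ + β t² + γ t + δ)` the Euler factor of `L(H³(X), s)` is the product of those
  of `L(E₁, s - 1)` and `L(E₂, s - 1)`, where `E₁ : y² = x³ + β x² + α γ x + α² δ` and
  `E₂ : y² = x³ + γ x² + δ β x + δ² α` are the two elliptic quotients of `C`.
* Let `D` be in the class of the joint law of the twists of `X_0(14)` and `X_0(49)`, and suppose that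
  both twists by `D` have rank `0` and no element of order two in `Ш`; this is the case for exactly
  the proportion `c² = 0.1759…` of the `D`. Then for all `X` with
  `- det (x A + z B) = 5 D k² (x² - z²) (8 x⁴ + 49 x² z² + 343 z⁴)` the function `L(H³(X), s)` is
  entire and not zero at `s = 2`, and `E₁(ℚ)`, `E₂(ℚ)` are finite. `E₁` is the twist by `D` of
  `X_0(14)` (no complex multiplication) and `E₂` the twist by `-7 D` of `X_0(49)` (complex
  multiplication). As `V² = CH²(X)⁰ ⊗ ℚ` is `J(C)(ℚ) ⊗ ℚ` (a known theorem, not part of the Lean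
  statement) and `J(C)` is isogenous to `E₁ × E₂`, `V² = 0` and the parts (i), (ii), (iii) of the
  conjecture hold for `X` and `i = 3`. There is such an `X` for every `D ≠ 0`.

The new input is the point count: exponential sums of the quadratic forms of the pencil over all
finite fields, the corank at the simple zeros of the discriminant, and the quotients of the
discriminant curve. The values `L(E, 1)` are those of the starting files
`Pool/Agent/Y687/MQ/*.lean`, `Pool/Agent/R426/QB/*.lean`, the joint law is that of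
`MP_696deb_nt/JointProportionX14X49`.
-/

set_option autoImplicit false

open scoped Classical LinearAlgebra.Projectivization Matrix

namespace Pool.Agent.Results.MP_29b22a_nt.IntersectionsOfTwoQuadrics

/-- the number of points of the intersection of the quadrics `xᵀ A x = 0` and `xᵀ B x = 0` in the
projective space of dimension `N - 1` over `K` -/
noncomputable def points {K : Type} [Field K] {N : ℕ} (A B : Matrix (Fin N) (Fin N) K) : ℕ :=
  Nat.card {P : ℙ K (Fin N → K) //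
    P.rep ⬝ᵥ A *ᵥ P.rep = 0 ∧ P.rep ⬝ᵥ B *ᵥ P.rep = 0}

/-- the trace of the `k`-th power of the Frobenius on `H³` of the intersection of two quadrics in
`P⁵`, by the Lefschetz trace formula: `1 + q + q² + q³ - #X(F_q)` with `q = p ^ k` -/
noncomputable def tr (A B : Matrix (Fin 6) (Fin 6) ℤ) (p : ℕ) [Fact p.Prime] (k : ℕ) : ℤ :=
  ∑ j ∈ Finset.range 4, ((p : ℤ) ^ k) ^ j -
    points (A.map (Int.castRingHom (GaloisField p k))) (B.map (Int.castRingHom (GaloisField p k)))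

/-- the terms of the logarithm of the Euler factor
`det (1 - Frob p^{-s} | H³)⁻¹ = exp (∑_{k ≥ 1} tr(k) p^{-ks} / k)` -/
noncomputable def term (A B : Matrix (Fin 6) (Fin 6) ℤ) (p : ℕ) [Fact p.Prime] (s : ℂ) (k : ℕ) :
    ℂ := (tr A B p (k + 1) : ℂ) * ((p : ℂ) ^ (-s)) ^ (k + 1) / ((k + 1 : ℕ) : ℂ)

/-- the Euler factor at `p` of the elliptic curve `y² = x³ + a x² + b x + c` at `s` -/
noncomputable def ell (a b c : ℤ) (p : ℕ) (s : ℂ) : ℂ :=
  (1 - (((p : ℤ) - (Nat.card {q : ZMod p × ZMod p //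
    q.2 ^ 2 = q.1 ^ 3 + (a : ZMod p) * q.1 ^ 2 + (b : ZMod p) * q.1 + (c : ZMod p)} : ℤ) : ℤ) : ℂ) *
    (p : ℂ) ^ (-s) + (p : ℂ) ^ (1 - 2 * s))⁻¹

/-- the discriminant of the cubic polynomial `α t³ + β t² + γ t + δ` -/
def disc (α β γ δ : ℤ) : ℤ := β ^ 2 * γ ^ 2 - 4 * α * γ ^ 3 - 4 * β ^ 3 * δ - 27 * α ^ 2 * δ ^ 2 +
  18 * α * β * γ * δ

/-- `F` is an entire function which equals the Euler product of `H³` over the primes `p ∤ N` on
`Re s > 5 / 2` -/
def IsL (A B : Matrix (Fin 6) (Fin 6) ℤ) (N : ℤ) (F : ℂ → ℂ) : Prop :=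
  Differentiable ℂ F ∧ ∀ s : ℂ, (5 : ℝ) / 2 < s.re →
    (∀ p : {p : ℕ // p.Prime ∧ ¬ (p : ℤ) ∣ N}, haveI := Fact.mk p.2.1; Summable (term A B p.1 s)) ∧
    HasProd (fun p : {p : ℕ // p.Prime ∧ ¬ (p : ℤ) ∣ N} =>
      haveI := Fact.mk p.2.1; Complex.exp (∑' k, term A B p.1 s k)) (F s)

/-- the entire `L`-function exists, and it is not zero at `s = 2` -/
def NonVanishing (A B : Matrix (Fin 6) (Fin 6) ℤ) (N : ℤ) : Prop :=
  (∃ F : ℂ → ℂ, IsL A B N F) ∧ ∀ F : ℂ → ℂ, IsL A B N F → F 2 ≠ 0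

/-- the curve `y² = x³ + a x² + b x + c` has finitely many rational points -/
def FinitePoints (a b c : ℤ) : Prop :=
  {q : ℚ × ℚ | q.2 ^ 2 = q.1 ^ 3 + (a : ℚ) * q.1 ^ 2 + (b : ℚ) * q.1 + (c : ℚ)}.Finite

/-- the class: `D` is squarefree and `1` modulo `8`, and its prime factors are `1` modulo `8` and
split in `ℚ(√-7)`, or `5` modulo `8` and inert in `ℚ(√-7)` -/
def Family (D : ℕ) : Prop := Squarefree D ∧ D % 8 = 1 ∧ ∀ p ∈ D.primeFactors,
  (p % 8 = 1 ∧ (p % 7 = 1 ∨ p % 7 = 2 ∨ p % 7 = 4)) ∨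
    (p % 8 = 5 ∧ (p % 7 = 3 ∨ p % 7 = 5 ∨ p % 7 = 6))

/-- `y² = x³ + a x + b` has finitely many rational points and its Tate-Shafarevich group over `ℚ`
has no element of order two -/
def RankZeroShaTwo (a b : ℤ) : Prop :=
  Finite (({ a₁ := 0, a₂ := 0, a₃ := 0, a₄ := (a : ℚ), a₆ := (b : ℚ) } :
    WeierstrassCurve ℚ).toAffine.Point) ∧
  ∀ x : Pool.Agent.TH841.SH.D.Sha ({ a₁ := 0, a₂ := 0, a₃ := 0, a₄ := (a : ℚ), a₆ := (b : ℚ) } :
    WeierstrassCurve ℚ), 2 • x = 0 → x = 0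

/-- the twists by `D` of `X_0(14)` and of `X_0(49)` have rank zero and no element of order two in
`Ш` -/
def Good (D : ℕ) : Prop := RankZeroShaTwo (5805 * (D : ℤ) ^ 2) (-285714 * (D : ℤ) ^ 3) ∧
  RankZeroShaTwo (-35 * (D : ℤ) ^ 2) (-98 * (D : ℤ) ^ 3)

/-- the pencil has the discriminant `5 D k² (x² - z²) (8 x⁴ + 49 x² z² + 343 z⁴)` -/
def HasDisc (A B : Matrix (Fin 6) (Fin 6) ℤ) (D k : ℤ) : Prop :=
  A.IsSymm ∧ B.IsSymm ∧ ∀ x z : ℤ, -(x • A + z • B).det =
    5 * D * k ^ 2 * (x ^ 2 - z ^ 2) * (8 * x ^ 4 + 49 * x ^ 2 * z ^ 2 + 343 * z ^ 4)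

/-- the first quadric of the example -/
def QA (D : ℤ) : Matrix (Fin 6) (Fin 6) ℤ :=
  !![-35 * D, 0, 0, 0, 0, 0; 0, 1, 0, 0, 0, 0; 0, 0, 1, 0, 0, 0; 0, 0, 0, -7, 0, 0;
    0, 0, 0, 0, -1, 0; 0, 0, 0, 0, 0, 8]

/-- the second quadric of the example -/
def QB (D : ℤ) : Matrix (Fin 6) (Fin 6) ℤ :=
  !![35 * D, 0, 0, 0, 0, 0; 0, 1, 0, 0, 0, 0; 0, 0, 0, 7, 0, 0; 0, 0, 7, 0, 7, 0;
    0, 0, 0, 7, 0, 7; 0, 0, 0, 0, 7, 0]

/-- `Q` has the proportion `θ` in the class -/
def HasProportion (Q : ℕ → Prop) (θ : ℝ) : Prop :=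
  Filter.Tendsto (fun X : ℕ =>
    (((Finset.Icc 1 X).filter fun D => Family D ∧ Q D).card : ℝ) /
    (((Finset.Icc 1 X).filter fun D => Family D).card : ℝ)) Filter.atTop (nhds θ)

theorem family_eq : Family = Pool.Agent.Results.MP_696deb_nt.JointProportionX14X49.Family := rfl

theorem good_iff (D : ℕ) : Good D ↔
    Pool.Agent.Results.MP_696deb_nt.JointProportionX14X49.Good false D ∧
    Pool.Agent.Results.MP_696deb_nt.JointProportionX14X49.Good true D := Iff.rfl

theorem det_Q (D x z : ℤ) : -(x • QA D + z • QB D).det =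
    5 * D * 7 ^ 2 * (x ^ 2 - z ^ 2) * (8 * x ^ 4 + 49 * x ^ 2 * z ^ 2 + 343 * z ^ 4) := by
  have e : x • QA D + z • QB D =
    !![-35 * D * x + 35 * D * z, 0, 0, 0, 0, 0; 0, x + z, 0, 0, 0, 0; 0, 0, x, 7 * z, 0, 0;
      0, 0, 7 * z, -7 * x, 7 * z, 0; 0, 0, 0, 7 * z, -x, 7 * z; 0, 0, 0, 0, 7 * z, 8 * x] := by
    ext i j
    fin_cases i <;> fin_cases j <;> simp [QA, QB] <;> ring
  rw [e]
  simp [Matrix.det_succ_row_zero, Fin.sum_univ_succ, Fin.succAbove]
  ring

theorem hasDisc_Q (D : ℤ) : HasDisc (QA D) (QB D) D 7 := by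
  refine ⟨?_, ?_, fun x z => det_Q D x z⟩
  · ext i j
    fin_cases i <;> fin_cases j <;> simp [QA]
  · ext i j
    fin_cases i <;> fin_cases j <;> simp [QB]

theorem points_eq {K : Type} [Field K] {N : ℕ} (A B : Matrix (Fin N) (Fin N) K) :
    points A B = Pool.Agent.W5h36.TQ.ptsF A B := rfl

theorem term_eq (A B : Matrix (Fin 6) (Fin 6) ℤ) (p : ℕ) [Fact p.Prime] (s : ℂ) :
    term A B p s = Pool.Agent.W5h36.TQ.term A B p s := rfl

theorem count (K : Type) [Field K] [Fintype K] (hK : ringChar K ≠ 2) (m : ℕ) (hm : 2 ≤ m)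
    (A B : Matrix (Fin (2 * m)) (Fin (2 * m)) K) (hA : A.IsSymm) (hB : B.IsSymm)
    (hr : ∀ x z : K, x ≠ 0 ∨ z ≠ 0 → 2 * m - 1 ≤ (x • A + z • B).rank) :
    ∑ j ∈ Finset.range (2 * m - 2), (Fintype.card K : ℤ) ^ j - points A B =
      (Fintype.card K : ℤ) ^ (m - 2) * ((Fintype.card K : ℤ) + 1 -
        (Nat.card {q : K × K // q.2 ^ 2 = (-1) ^ m * (q.1 • A + B).det} +
          Nat.card {y : K // y ^ 2 = (-1) ^ m * A.det})) := by
  have h1 := Pool.Agent.W5h36.TQ.pts_count hK hm (by rw [Fintype.card_fin]) hA hB (fun v hv => by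
    refine hr v.1 v.2 ?_
    by_contra h
    push Not at h
    exact hv (Prod.ext h.1 h.2))
  have h2 := Pool.Agent.W5h36.TQ.card_pts hK (fun x : K => (-1) ^ m * (x • A + B).det)
  have h3 : (Nat.card {y : K // y ^ 2 = (-1) ^ m * A.det} : ℤ) =
      quadraticChar K ((-1) ^ m * A.det) + 1 := by
    have h4 := quadraticChar_card_sqrts hK ((-1) ^ m * A.det)
    rw [← h4, Set.toFinset_card, Nat.card_eq_fintype_card]
    rfl
  rw [points_eq, h1, h2, h3]
  unfold Pool.Agent.W5h36.TQ.lineSum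
  ring

theorem prop_good : HasProportion Good ((∏' i : ℕ, (1 - (1 / 2 : ℝ) ^ (2 * i + 1))) ^ 2) := by
  have h := Pool.Agent.Results.MP_696deb_nt.JointProportionX14X49.result.2.2.1
    {(false, 1), (true, 1)} {(false, 1), (true, 1)} (by
      intro x hx
      have h1 : x.2 = 1 := by
        rcases Finset.mem_insert.1 hx with h | h
        · rw [h]
        · rw [Finset.mem_singleton.1 h]
      rw [h1]
      exact ⟨squarefree_one, rfl, by simp⟩) (Finset.Subset.refl _)
  have e0 : ({(false, 1), (true, 1)} : Finset (Bool × ℕ)).card = 2 := rfl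
  rw [e0, Nat.sub_self, pow_zero, mul_one] at h
  refine Filter.Tendsto.congr (fun X => ?_) h
  have e : ∀ Q Q' : ℕ → Prop, (∀ D, Q D ↔ Q' D) →
      Pool.Agent.Results.MP_696deb_nt.JointProportionX14X49.num Q X =
        ((Finset.Icc 1 X).filter fun D => Family D ∧ Q' D).card := by
    intro Q Q' hQ
    unfold Pool.Agent.Results.MP_696deb_nt.JointProportionX14X49.num
    refine congrArg Finset.card (Finset.ext fun D => ?_)
    simp only [Finset.mem_filter]
    rw [hQ, family_eq]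
  have e1 : Pool.Agent.Results.MP_696deb_nt.JointProportionX14X49.num (fun _ => True) X =
        ((Finset.Icc 1 X).filter fun D => Family D).card := by
    rw [e (fun _ => True) (fun _ => True) fun _ => Iff.rfl]
    refine congrArg Finset.card (Finset.ext fun D => ?_)
    simp only [Finset.mem_filter, and_true]
  rw [e1, e _ Good fun D => ?_]
  have ht : Pool.Agent.Results.MP_696deb_nt.JointProportionX14X49.tw 1 D = D := by
    unfold Pool.Agent.Results.MP_696deb_nt.JointProportionX14X49.tw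
    rw [one_mul, Nat.gcd_one_left, one_pow, Nat.div_one]
  rw [good_iff]
  constructor
  · intro h1
    have h2 := (h1 (false, 1) (by simp)).2 (by simp)
    have h3 := (h1 (true, 1) (by simp)).2 (by simp)
    simp only [ht] at h2 h3
    exact ⟨h2, h3⟩
  · rintro ⟨h1, h2⟩ x hx
    refine ⟨fun _ => hx, fun _ => ?_⟩
    rcases Finset.mem_insert.1 hx with h | h
    · rw [h]
      simp only [ht]
      exact h1
    · rw [Finset.mem_singleton.1 h]
      simp only [ht]
      exact h2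

theorem result :
    -- the number of points of the intersections of two quadrics, all odd dimensions
    (∀ (K : Type) [Field K] [Fintype K], ringChar K ≠ 2 → ∀ m : ℕ, 2 ≤ m →
      ∀ A B : Matrix (Fin (2 * m)) (Fin (2 * m)) K, A.IsSymm → B.IsSymm →
      (∀ x z : K, x ≠ 0 ∨ z ≠ 0 → 2 * m - 1 ≤ (x • A + z • B).rank) →
      ∑ j ∈ Finset.range (2 * m - 2), (Fintype.card K : ℤ) ^ j - points A B =
        (Fintype.card K : ℤ) ^ (m - 2) * ((Fintype.card K : ℤ) + 1 -
          (Nat.card {q : K × K // q.2 ^ 2 = (-1) ^ m * (q.1 • A + B).det} +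
            Nat.card {y : K // y ^ 2 = (-1) ^ m * A.det}))) ∧
    -- the Euler factors of `H³` of the threefolds with bielliptic discriminant curve
    (∀ (A B : Matrix (Fin 6) (Fin 6) ℤ) (α β γ δ : ℤ), A.IsSymm → B.IsSymm →
      (∀ x z : ℤ, -(x • A + z • B).det =
        α * x ^ 6 + β * x ^ 4 * z ^ 2 + γ * x ^ 2 * z ^ 4 + δ * z ^ 6) →
      ∀ (p : ℕ) (hp : p.Prime), ¬ (p : ℤ) ∣ 2 * α * δ * disc α β γ δ → ∀ s : ℂ,
        (3 : ℝ) / 2 < s.re → haveI := Fact.mk hp
        Summable (term A B p s) ∧ Complex.exp (∑' k, term A B p s k) =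
          ell β (α * γ) (α ^ 2 * δ) p (s - 1) * ell γ (δ * β) (δ ^ 2 * α) p (s - 1)) ∧
    -- the parts (i), (ii), (iii) for the pencils attached to `D`
    (∀ D : ℕ, Family D → Good D → ∀ (A B : Matrix (Fin 6) (Fin 6) ℤ) (k : ℤ), k ≠ 0 →
      HasDisc A B D k → NonVanishing A B (210 * D * k) ∧
        FinitePoints (41 * (5 * D * k ^ 2)) (8 * (5 * D * k ^ 2) * (294 * (5 * D * k ^ 2)))
          ((8 * (5 * D * k ^ 2)) ^ 2 * (-343 * (5 * D * k ^ 2))) ∧
        FinitePoints (294 * (5 * D * k ^ 2)) (-343 * (5 * D * k ^ 2) * (41 * (5 * D * k ^ 2)))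
          ((-343 * (5 * D * k ^ 2)) ^ 2 * (8 * (5 * D * k ^ 2)))) ∧
    -- the pencils exist, and the exact proportion
    (∀ D : ℤ, HasDisc (QA D) (QB D) D 7) ∧
    (∀ n : ℕ, ∃ D : ℕ, n < D ∧ Family D) ∧
    HasProportion Good ((∏' i : ℕ, (1 - (1 / 2 : ℝ) ^ (2 * i + 1))) ^ 2) ∧
    0.1758 < (∏' i : ℕ, (1 - (1 / 2 : ℝ) ^ (2 * i + 1))) ^ 2 := by
  refine ⟨fun K _ _ hK m hm A B hA hB hr => count K hK m hm A B hA hB hr, ?_, ?_,
    fun D => hasDisc_Q D, ?_, ?_, ?_⟩
  · intro A B α β γ δ hA hB h p hp hpd s hs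
    haveI := Fact.mk hp
    exact Pool.Agent.W5h36.TQ.euler hA hB h hpd hs
  · intro D hF hG A B k hk hd
    obtain ⟨hA, hB, hdet⟩ := hd
    obtain ⟨⟨F, hL, hF2⟩, f1, f2⟩ := Pool.Agent.W5h36.TQ.main hF hG.1 hG.2 hA hB hk hdet
    refine ⟨⟨⟨F, hL⟩, ?_⟩, f1, f2⟩
    intro G hL'
    have e : G = F := Pool.Agent.W5h35.CU.unique_f hL'.1 hL.1 (fun s hs => (hL'.2 s hs).2)
      (fun s hs => (hL.2 s hs).2)
    rw [e]
    exact hF2
  · intro n
    obtain ⟨p, h1, h2, h3⟩ := Nat.exists_prime_gt_modEq_one (k := 56) n (by norm_num)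
    refine ⟨p, h2, h1.squarefree, ?_, ?_⟩
    · have := h3.of_dvd (by norm_num : 8 ∣ 56)
      exact this
    · intro q hq
      have hqp : q = p := by
        rw [h1.primeFactors, Finset.mem_singleton] at hq
        exact hq
      subst hqp
      left
      refine ⟨h3.of_dvd (by norm_num : 8 ∣ 56), Or.inl (h3.of_dvd (by norm_num : 7 ∣ 56))⟩
  · exact prop_good
  · have h := Pool.Agent.Results.MP_696deb_nt.JointProportionX14X49.result.2.2.2.1
    unfold Pool.Agent.Results.MP_696deb_nt.JointProportionX14X49.c at h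
    nlinarith

end Pool.Agent.Results.MP_29b22a_nt.IntersectionsOfTwoQuadrics
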