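import Pool.Agent.W5h26.BM.Cen

/-!
# The order at the centre and one-sided laws for the traces of Frobenius on `H^{2m-1}(X)`

Let `X` be a smooth projective variety over `ℚ`, `m ≥ 1`, and let `α_{p,j}` be the eigenvalues of Frobenius on
`H^{2m-1}(X)`. Part (iii) of the conjecture says that the order `r` of `L(H^{2m-1}(X), s)` at `s = m` is the
dimension of `CH^m(X)^0 ⊗ ℚ`. For an elliptic curve the conjecture was found by Birch and Swinnerton-Dyer
from the growth of `∏_{p ≤ x} #E(𝔽_p)/p`. Here the corresponding sums for all `X` are considered, over all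
finite fields with at most `x` elements,

`T(x) = - ∑_{p^e ≤ x} (1/e) ∑_j (α_{p,j} / p^m)^e`,

the trace of the Frobenius of the field with `q = p^e` elements divided by `e q^m` (for a complete intersection of
dimension `2m - 1` the trace is `1 + q + ⋯ + q^{2m-1} - #X(𝔽_q)`). For real `ρ` (the dimension of
`CH^m(X)^0 ⊗ ℚ`) it is shown, with no hypothesis on the growth of the L-function:

* if the means `(log Y)⁻¹ ∫_e^Y (T(y) - ρ log log y)⁺ dy/y` are bounded, then there are no zeros with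
  `Re s > m`, and `r ≤ ρ`;
* if the means of `(T(y) - ρ log log y)⁻` are bounded, and there are no real zeros `> m`, then there are no
  zeros with `Re s > m`, and `r ≥ ρ`;
* the same if `T(n) ≤ ρ log log n + C`, resp. `≥ ρ log log n - C`, for all integers `n` with at most `x^{1-l}`
  exceptions in `[x, 2x]`, `l > 1/4`; and bounds `n^{θ+ε}` with such exceptions, `l ≥ 0`, exclude zeros
  with `Re s > m + max(θ, 1/2 - 2l)`.

Under polynomial growth in a half-plane `Re s > m - η` the mean laws are equivalences, and `l > 0` is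
sufficient, with `θ` in place of `max(θ, 1/2 - 2l)`. So `r = ρ` and the Riemann hypothesis hold if and only if the
means of `|T(y) - ρ log log y|` are bounded.

Proof. The Laplace transform of `T(e^u) - ρ log u` is `-log L(m + s)/s` up to elementary terms. Landau's lemma for the
positive or negative part; the mean square of the partial sums to the right of all zeros.
-/

set_option autoImplicit false

namespace Pool.Agent.Results.MP_29b22a_nt.OneSidedTraceLaws

open Filter Topology Classical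
open Pool.Agent.TH942.ES Pool.Agent.TH270.MS
open Pool.Agent.W5h26.BM
open Pool.Agent.W5h26.ML
open Pool.Agent.W5h26.OS (Out free_upper free_lower order_upper order_lower grow_free_upper
  grow_free_lower grow_upper grow_lower)

section defs

variable {n N : ℕ}

/-- The number of the nonzero solutions over the field `κ` of the homogeneous equations `X`: the number
of elements of `κ` minus one, times the number of the points of `X` with coordinates in `κ`. -/
noncomputable def solutions (X : Set (MvPolynomial (Fin n) ℤ)) (κ : Type) [Field κ] : ℕ :=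
  Nat.card {u : Fin n → κ // u ≠ 0 ∧ ∀ f ∈ X, MvPolynomial.eval₂ (Int.castRingHom κ) u f = 0}

/-- `α_1, …, α_N` are the eigenvalues of the geometric Frobenius at the prime `p` on `H^{2m-1}(X)`, for a
variety `X` of dimension `d`: they are the zeros of a polynomial with integral coefficients, and there are
finite multisets `β_k` of complex numbers of absolute value `p^{k/2}`, `k = 0, …, 2d`, with
`β_{2m-1} = {α_1, …, α_N}`, such that for every field `κ` with `p^e` elements the number of the points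
of `X` with coordinates in `κ` is `∑ (-1)^k ∑_{z ∈ β_k} z^e`. By the theorem of Deligne this holds at
almost all primes if `X` is smooth and projective, with `N` the Betti number of `X` in degree `2m - 1`. -/
def IsFrobenius (X : Set (MvPolynomial (Fin n) ℤ)) (d m p : ℕ) (α : Fin N → ℂ) : Prop :=
  (∃ P : Polynomial ℤ, P.map (Int.castRingHom ℂ) = ∏ j, (Polynomial.X - Polynomial.C (α j))) ∧
    ∃ β : ℕ → Multiset ℂ, β (2 * m - 1) = Finset.univ.val.map α ∧
      (∀ k, ∀ z ∈ β k, ‖z‖ = (p : ℝ) ^ ((k : ℝ) / 2)) ∧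
      ∀ (κ : Type) [Field κ] [Finite κ] (e : ℕ), Nat.card κ = p ^ e →
        (solutions X κ : ℂ) = ((p : ℂ) ^ e - 1) *
          ∑ k ∈ Finset.range (2 * d + 1), (-1 : ℂ) ^ k * ((β k).map (fun z => z ^ e)).sum

/-- `α_{p,1}, …, α_{p,N}` are the parameters of the Euler factors of `L(H^{2m-1}(X), s)`: at the primes
outside the finite set `S` they are the eigenvalues of Frobenius, and at the primes in `S` any numbers
of absolute value at most `p^{(2m-1)/2}` (the eigenvalues of Frobenius on the inertia invariants,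
completed by zeros). -/
def IsParameter (X : Set (MvPolynomial (Fin n) ℤ)) (d m : ℕ) (S : Finset ℕ)
    (α : ℕ → Fin N → ℂ) : Prop :=
  (∀ p : ℕ, p.Prime → p ∉ S → IsFrobenius X d m p (α p)) ∧
    ∀ p : ℕ, p.Prime → p ∈ S → ∀ j, ‖α p j‖ ≤ (p : ℝ) ^ (((2 * m - 1 : ℕ) : ℝ) / 2)

/-- The L-function `∏_p ∏_j (1 - α_{p,j} p^{-s})⁻¹`. -/
noncomputable def LFun (α : ℕ → Fin N → ℂ) (s : ℂ) : ℂ :=
  ∏' p : ℕ, if p.Prime then ∏ j, (1 - α p j * (p : ℂ) ^ (-s))⁻¹ else 1

/-- `F` is holomorphic for `Re s > m` and at the point `m`, and it is the L-function for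
`Re s > m + 1/2`. -/
def IsContinuation (m : ℕ) (α : ℕ → Fin N → ℂ) (F : ℂ → ℂ) : Prop :=
  (∀ s : ℂ, (m : ℝ) < s.re → DifferentiableAt ℂ F s) ∧ AnalyticAt ℂ F m ∧
    ∀ s : ℂ, (m : ℝ) + 1 / 2 < s.re → F s = LFun α s

/-- `F` is holomorphic and of polynomial growth in a half-plane `Re s > m - η`. -/
def PolynomialGrowth (m : ℕ) (F : ℂ → ℂ) : Prop :=
  ∃ (η C : ℝ) (κ : ℕ), 0 < η ∧ (∀ s : ℂ, m - η < s.re → DifferentiableAt ℂ F s) ∧
    ∀ s : ℂ, m - η < s.re → ‖F s‖ ≤ C * (1 + ‖s‖) ^ κ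

/-- `T(x) = - ∑ (1/e) ∑_j (α_{p,j} / p^m)^e`, the sum over the prime powers `p^e ≤ x`, `e ≥ 1`, with `p`
outside `S` (the inner sum is real). -/
noncomputable def traceSum (m : ℕ) (S : Finset ℕ) (α : ℕ → Fin N → ℂ) (x : ℝ) : ℝ :=
  -∑ᶠ (q : ℕ × ℕ) (_ : q.1.Prime ∧ q.1 ∉ S ∧ 1 ≤ q.2 ∧ (q.1 : ℝ) ^ q.2 ≤ x),
    (∑ j, (α q.1 j / (q.1 : ℂ) ^ m) ^ q.2).re / q.2

/-- The logarithmic means `(log Y)⁻¹ ∫_e^Y f(y)⁺ dy/y` are bounded. -/
def MeanBound (f : ℝ → ℝ) : Prop :=
  ∃ B : ℝ, ∀ᶠ Y : ℝ in atTop, ∫ y in Real.exp 1..Y, max (f y) 0 / y ≤ B * Real.log Y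

/-- `A(k)` holds for all but at most `x ^ (1 - l)` of the integers `k` in `[x, 2 x]`, for all large
`x`. -/
def Almost (l : ℝ) (A : ℕ → Prop) : Prop :=
  ∀ᶠ x : ℕ in atTop, ({k : ℕ | x ≤ k ∧ k ≤ 2 * x ∧ ¬ A k}.ncard : ℝ) ≤ (x : ℝ) ^ (1 - l)

/-- `F` has no zeros with `Re s > σ`. -/
def NoZeros (F : ℂ → ℂ) (σ : ℝ) : Prop := ∀ s : ℂ, σ < s.re → F s ≠ 0

/-- `F` has no real zeros `x > σ`. -/
def NoRealZeros (F : ℂ → ℂ) (σ : ℝ) : Prop := ∀ x : ℝ, σ < x → F x ≠ 0

/-- An upper bound `T(k) ≤ k ^ (θ + ε)` outside an exceptional set excludes zeros with `Re s > m + Θ`, and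
so does a lower bound if there are no real zeros. -/
def ZeroFree (T : ℝ → ℝ) (F : ℂ → ℂ) (m : ℕ) (l θ Θ : ℝ) : Prop :=
  ((∀ ε : ℝ, 0 < ε → Almost l fun k => T k ≤ (k : ℝ) ^ (θ + ε)) → NoZeros F (m + Θ)) ∧
  ((∀ ε : ℝ, 0 < ε → Almost l fun k => -(k : ℝ) ^ (θ + ε) ≤ T k) →
    NoRealZeros F (m + Θ) → NoZeros F (m + Θ))

/-- An upper bound `T(k) ≤ ρ log log k + C` outside an exceptional set implies the Riemann hypothesis
and `r ≤ ρ`; a lower bound implies the Riemann hypothesis and `r ≥ ρ`, if there are no real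
zeros. -/
def OrderLaw (T : ℝ → ℝ) (F : ℂ → ℂ) (m r : ℕ) (l : ℝ) : Prop :=
  ∀ ρ C : ℝ,
    ((Almost l fun k => T k ≤ ρ * Real.log (Real.log k) + C) → NoZeros F m ∧ (r : ℝ) ≤ ρ) ∧
    ((Almost l fun k => ρ * Real.log (Real.log k) - C ≤ T k) → NoRealZeros F m →
      NoZeros F m ∧ ρ ≤ r)

end defs

section bridge

variable {n d m N : ℕ} {X : Set (MvPolynomial (Fin n) ℤ)} {S : Finset ℕ} {α : ℕ → Fin N → ℂ}
  {F : ℂ → ℂ}

theorem par (hm : 1 ≤ m) (hα : IsParameter X d m S α) : Par m S α := by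
  have e : ((2 * m - 1 : ℕ) : ℝ) / 2 = (m : ℝ) - 1 / 2 := by
    rw [Nat.cast_sub (by omega)]
    push_cast
    ring
  refine ⟨fun p hp hS => (hα.1 p hp hS).1, fun p hp hS j => ?_, fun p hp hS j => ?_⟩
  · obtain ⟨-, β, hβ, hn, -⟩ := hα.1 p hp hS
    rw [← e]
    refine hn (2 * m - 1) (α p j) ?_
    rw [hβ]
    exact Multiset.mem_map_of_mem _ (Finset.mem_univ j)
  · rw [← e]
    exact hα.2 p hp hS j

theorem isL (hp : Par m S α) (hF : IsContinuation m α F) : IsL m α F := by
  intro s hs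
  have h1 := hasProd_all hp (s := s - m) (by
    rw [Complex.sub_re, Complex.natCast_re]
    linarith)
  rw [add_sub_cancel] at h1
  have h2 : F s = _ := (hF.2.2 s hs).trans h1.tprod_eq
  rw [h2]
  exact h1

theorem out_of {l : ℝ} {A : ℕ → Prop} (h : Almost l A) : Out l A := by
  filter_upwards [h] with x hx
  have h1 : {k : ℕ | x ≤ k ∧ k ≤ 2 * x ∧ ¬ A k} =
      ((Finset.Icc x (2 * x)).filter fun k => ¬ A k : Finset ℕ) := by
    ext k
    simp only [Set.mem_ofPred_eq, Finset.coe_filter, Finset.mem_Icc, and_assoc]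
  rw [h1, Set.ncard_coe_finset] at hx
  exact hx

/-- the sum over the prime powers -/
theorem traceSum_eq (S : Finset ℕ) (α : ℕ → Fin N → ℂ) (x : ℝ) :
    traceSum m S α x = -Pl (NQ S) (al m S α) x := by
  unfold traceSum Pl
  congr 1
  refine (finsum_mem_eq_of_bijOn (fun q : {p // GP S p} × ℕ => ((q.1.1, q.2 + 1) : ℕ × ℕ))
    (s := {q | (NQ S q.1 : ℝ) ^ (q.2 + 1) ≤ x}) (t := {q : ℕ × ℕ | q.1.Prime ∧ q.1 ∉ S ∧ 1 ≤ q.2 ∧
      (q.1 : ℝ) ^ q.2 ≤ x}) ⟨?_, ?_, ?_⟩ ?_).symm
  · rintro ⟨v, k⟩ hq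
    exact ⟨v.2.1, v.2.2, by simp, hq⟩
  · rintro ⟨v, k⟩ - ⟨w, k'⟩ - h
    simp only [Prod.mk.injEq, add_left_inj] at h
    exact Prod.ext (Subtype.ext h.1) h.2
  · rintro ⟨p, e⟩ ⟨h1, h2, h3, h4⟩
    refine ⟨(⟨p, h1, h2⟩, e - 1), ?_, ?_⟩
    · show (p : ℝ) ^ (e - 1 + 1) ≤ x
      rw [Nat.sub_add_cancel h3]
      exact h4
    · simp only
      rw [Nat.sub_add_cancel h3]
  · rintro ⟨v, k⟩ -
    unfold cP
    simp only [zv_al]
    push_cast
    rfl

theorem close (hp : Par m S α) : ∃ K : ℝ, 0 ≤ K ∧ ∀ y : ℝ, 1 ≤ y →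
    |traceSum m S α y - LP (NQ S) (al m S α) y| ≤ K := by
  obtain ⟨K, hK⟩ := lp_pl (par_sys hp)
  refine ⟨K, (abs_nonneg _).trans (hK 1 le_rfl), fun y hy => ?_⟩
  rw [traceSum_eq]
  have h1 : -Pl (NQ S) (al m S α) y - LP (NQ S) (al m S α) y =
      -(LP (NQ S) (al m S α) y + Pl (NQ S) (al m S α) y) := by ring
  rw [h1, abs_neg]
  exact hK y hy

theorem pow_gap {a b K : ℝ} (ha : 0 ≤ a) (hab : a < b) :
    ∀ᶠ k : ℕ in atTop, (k : ℝ) ^ a + K ≤ (k : ℝ) ^ b := by
  have h1 : Tendsto (fun k : ℕ => (k : ℝ) ^ (b - a)) atTop atTop :=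
    (tendsto_rpow_atTop (by linarith)).comp tendsto_natCast_atTop_atTop
  filter_upwards [h1.eventually_ge_atTop (|K| + 1), eventually_ge_atTop 1] with k hk hk1
  have h2 : (1 : ℝ) ≤ k := by exact_mod_cast hk1
  have h3 : (k : ℝ) ^ b = (k : ℝ) ^ a * (k : ℝ) ^ (b - a) := by
    rw [← Real.rpow_add (by linarith)]
    congr 1
    ring
  have h4 : 1 ≤ (k : ℝ) ^ a := Real.one_le_rpow h2 ha
  rw [h3]
  have h5 := le_abs_self K
  have h6 := abs_nonneg K
  nlinarith

theorem zero_free (hp : Par m S α) {l θ Θ : ℝ} (hθ : 0 ≤ θ) (hΘ : 0 ≤ Θ)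
    (h1 : (∀ ε : ℝ, 0 < ε → Out l fun k => LP (NQ S) (al m S α) k ≤ (k : ℝ) ^ (θ + ε)) →
      ∀ s : ℂ, Θ < s.re → GS m S α F s ≠ 0)
    (h2 : (∀ ε : ℝ, 0 < ε → Out l fun k => -(k : ℝ) ^ (θ + ε) ≤ LP (NQ S) (al m S α) k) →
      (∀ x : ℝ, Θ < x → GS m S α F x ≠ 0) → ∀ s : ℂ, Θ < s.re → GS m S α F s ≠ 0) :
    ZeroFree (traceSum m S α) F m l θ Θ := by
  obtain ⟨K, hK0, hK⟩ := close hp
  refine ⟨fun h => ?_, fun h hr => ?_⟩
  · refine (gs_zero hp hΘ).1 (h1 fun ε hε => (out_of (h (ε / 2) (by linarith))).mono ?_)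
    filter_upwards [pow_gap (K := K) (by linarith : 0 ≤ θ + ε / 2)
      (by linarith : θ + ε / 2 < θ + ε), eventually_ge_atTop 1] with k h3 h4 h5
    have h6 := (abs_le.1 (hK k (by exact_mod_cast h4))).1
    linarith
  · refine (gs_zero hp hΘ).1 (h2 (fun ε hε => (out_of (h (ε / 2) (by linarith))).mono ?_)
      ((gs_real hp hΘ).2 hr))
    filter_upwards [pow_gap (K := K) (by linarith : 0 ≤ θ + ε / 2)
      (by linarith : θ + ε / 2 < θ + ε), eventually_ge_atTop 1] with k h3 h4 h5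
    have h6 := (abs_le.1 (hK k (by exact_mod_cast h4))).2
    linarith

theorem order_law (hp : Par m S α) {r : ℕ} (hr : analyticOrderAt (GS m S α F) 0 = r)
    {l : ℝ}
    (h1 : ∀ ρ q : ℝ, (Out l fun k => LP (NQ S) (al m S α) k ≤ ρ * Real.log (Real.log k) + q) →
      (∀ s : ℂ, 0 < s.re → GS m S α F s ≠ 0) ∧
        ∀ p : ℕ, analyticOrderAt (GS m S α F) 0 = p → (p : ℝ) ≤ (0 : ℕ) + ρ)
    (h2 : ∀ ρ q : ℝ, (Out l fun k => ρ * Real.log (Real.log k) - q ≤ LP (NQ S) (al m S α) k) →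
      (∀ x : ℝ, 0 < x → GS m S α F x ≠ 0) → (∀ s : ℂ, 0 < s.re → GS m S α F s ≠ 0) ∧
        ∀ p : ℕ, analyticOrderAt (GS m S α F) 0 = p → ((0 : ℕ) : ℝ) + ρ ≤ p) :
    OrderLaw (traceSum m S α) F m r l := by
  obtain ⟨K, hK0, hK⟩ := close hp
  have hz := gs_zero (F := F) hp (le_refl (0 : ℝ))
  rw [add_zero] at hz
  have hz' := gs_real (F := F) hp (le_refl (0 : ℝ))
  rw [add_zero] at hz'
  intro ρ C
  constructor
  · intro h
    obtain ⟨h3, h4⟩ := h1 ρ (C + K) ((out_of h).mono (by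
      filter_upwards [eventually_ge_atTop 1] with k h4 h5
      have h6 := (abs_le.1 (hK k (by exact_mod_cast h4))).1
      linarith))
    refine ⟨hz.1 h3, ?_⟩
    have h5 := h4 r hr
    rw [Nat.cast_zero, zero_add] at h5
    exact h5
  · intro h hreal
    obtain ⟨h3, h4⟩ := h2 ρ (C + K) ((out_of h).mono (by
      filter_upwards [eventually_ge_atTop 1] with k h4 h5
      have h6 := (abs_le.1 (hK k (by exact_mod_cast h4))).2
      linarith)) (hz'.2 hreal)
    refine ⟨hz.1 h3, ?_⟩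
    have h5 := h4 r hr
    rw [Nat.cast_zero, zero_add] at h5
    exact h5

/-- the mean laws -/
theorem mean_pos (hp : Par m S α) (ρ : ℝ) :
    MeanBound (fun y => traceSum m S α y - ρ * Real.log (Real.log y)) ↔
      Law fun y => max (dev (NQ S) (al m S α) ρ y) 0 := by
  have h1 := law_pl hp ρ 1 abs_one
  simp only [one_mul] at h1
  rw [← h1]
  unfold MeanBound Law dp
  simp only [traceSum_eq, neg_add, sub_eq_add_neg]

theorem mean_neg (hp : Par m S α) (ρ : ℝ) :
    MeanBound (fun y => ρ * Real.log (Real.log y) - traceSum m S α y) ↔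
      Law fun y => max (-dev (NQ S) (al m S α) ρ y) 0 := by
  have h1 := law_pl hp ρ (-1) (by rw [abs_neg, abs_one])
  simp only [neg_one_mul] at h1
  rw [← h1]
  unfold MeanBound Law dp
  have e : ∀ y : ℝ, ρ * Real.log (Real.log y) - traceSum m S α y =
      - -(Pl (NQ S) (al m S α) y + ρ * Real.log (Real.log y)) := by
    intro y
    rw [traceSum_eq]
    ring
  simp only [e]

end bridge

/-- **One-sided laws for the traces of Frobenius on `H^{2m-1}(X)`.** Let `X` be a smooth projective variety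
over `ℚ` of dimension `d`, defined by homogeneous equations, `m ≥ 1`, `F` the L-function of `H^{2m-1}(X)`,
holomorphic for `Re s > m` and at `s = m`, where it has the order `r`, and `T(x)` the sum over the prime powers
`p^e ≤ x` (`p` outside the finite set `S` of bad primes) of `-Tr(Frob_p^e | H^{2m-1}(X)) / (e p^{em})`. Then for
all real `ρ`, for example the dimension of `CH^m(X)^0 ⊗ ℚ`:

* if the means of `(T(y) - ρ log log y)⁺` are bounded, `F` has no zeros with `Re s > m`, and `r ≤ ρ`; if the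
  means of `(T(y) - ρ log log y)⁻` are bounded and `F` has no real zeros `> m`, then `F` has no zeros with
  `Re s > m`, and `r ≥ ρ`;
* the same for upper and lower bounds `ρ log log k ± C` outside exceptional sets of integers with at most
  `x^{1-l}` elements in `[x, 2x]`, for `l > 1/4`;
* for `l, θ ≥ 0` the bounds `± k^{θ+ε}` outside such sets exclude zeros with
  `Re s > m + max(θ, 1/2 - 2l)`;
* if `F` is of polynomial growth in a half-plane `Re s > m - η`, the last two assertions hold for all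
  `l > 0`, with `θ` in place of `max(θ, 1/2 - 2l)`, and the first one is an equivalence; the means of
  `|T(y) - ρ log log y|` are bounded if and only if `F` has no zeros with `Re s > m` and `r = ρ`. -/
theorem result (n : ℕ) (X : Set (MvPolynomial (Fin n) ℤ)) (d m N : ℕ) (hm : 1 ≤ m) (S : Finset ℕ)
    (α : ℕ → Fin N → ℂ) (hα : IsParameter X d m S α) (F : ℂ → ℂ) (hF : IsContinuation m α F)
    (r : ℕ) (hr : analyticOrderAt F m = r) :
    (∀ ρ : ℝ,
      (MeanBound (fun y => traceSum m S α y - ρ * Real.log (Real.log y)) →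
        NoZeros F m ∧ (r : ℝ) ≤ ρ) ∧
      (MeanBound (fun y => ρ * Real.log (Real.log y) - traceSum m S α y) →
        NoRealZeros F m → NoZeros F m ∧ ρ ≤ r)) ∧
    (∀ l : ℝ, 1 / 4 < l → OrderLaw (traceSum m S α) F m r l) ∧
    (∀ l θ : ℝ, 0 ≤ l → 0 ≤ θ →
      ZeroFree (traceSum m S α) F m l θ (max θ (1 / 2 - 2 * l))) ∧
    (PolynomialGrowth m F →
      (∀ l : ℝ, 0 < l → OrderLaw (traceSum m S α) F m r l ∧
        ∀ θ : ℝ, 0 ≤ θ → ZeroFree (traceSum m S α) F m l θ θ) ∧
      ∀ ρ : ℝ,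
        (MeanBound (fun y => traceSum m S α y - ρ * Real.log (Real.log y)) ↔
          NoZeros F m ∧ (r : ℝ) ≤ ρ) ∧
        (NoRealZeros F m →
          (MeanBound (fun y => ρ * Real.log (Real.log y) - traceSum m S α y) ↔
            NoZeros F m ∧ ρ ≤ r)) ∧
        (MeanBound (fun y => |traceSum m S α y - ρ * Real.log (Real.log y)|) ↔
          NoZeros F m ∧ (r : ℝ) = ρ)) := by
  have hp := par hm hα
  have hL := isL hp hF
  obtain ⟨hF1, hF2, -⟩ := hF
  have H := bm_mh hp hL hF1 hF2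
  have hD := fib S
  have hr' := gs_order (S := S) hp hF2 hr
  have hz := gs_zero (F := F) hp (le_refl (0 : ℝ))
  rw [add_zero] at hz
  have hz' := gs_real (F := F) hp (le_refl (0 : ℝ))
  rw [add_zero] at hz'
  refine ⟨fun ρ => ⟨fun h => ?_, fun h hreal => ?_⟩, fun l hl => ?_, fun l θ hl hθ => ?_,
    fun hg => ?_⟩
  · obtain ⟨h1, h2⟩ := H.upper ((mean_pos hp ρ).1 h)
    have h3 := h2 r hr'
    rw [Nat.cast_zero, zero_add] at h3
    exact ⟨hz.1 h1, h3⟩
  · obtain ⟨h1, h2⟩ := H.lower ((mean_neg hp ρ).1 h) (hz'.2 hreal)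
    have h3 := h2 r hr'
    rw [Nat.cast_zero, zero_add] at h3
    exact ⟨hz.1 h1, h3⟩
  · exact order_law hp hr' (fun ρ q h => order_upper H hD hl h)
      fun ρ q h hreal => order_lower H hD hl h hreal
  · exact zero_free hp hθ (hθ.trans (le_max_left _ _)) (fun h => free_upper H hD hl hθ h)
      fun h hreal => free_lower H hD hl hθ h hreal
  · obtain ⟨η, C, κ, hη, h1, h2⟩ := hg
    have H' := bm_mc hp hL hη h1 h2
    refine ⟨fun l hl => ⟨?_, fun θ hθ => ?_⟩, fun ρ => ?_⟩
    · exact order_law hp hr' (fun ρ q h => grow_upper H' hl h)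
        fun ρ q h hreal => grow_lower H' hl h hreal
    · exact zero_free hp hθ hθ (fun h => grow_free_upper H' hl hθ h)
        fun h hreal => grow_free_lower H' hl hθ h hreal
    · obtain ⟨h3, h4, h5⟩ := laws H' hr' ρ
      rw [Nat.cast_zero, zero_add] at h3 h4 h5
      have e1 := mean_pos hp ρ
      have e2 := mean_neg hp ρ
      refine ⟨?_, fun hreal => ?_, ?_⟩
      · rw [e1, h3, hz]
        rfl
      · rw [e2, h4 (hz'.2 hreal), hz]
        rfl
      · have e3 : MeanBound (fun y => |traceSum m S α y - ρ * Real.log (Real.log y)|) ↔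
            Law fun y => |dp m S α ρ y| := by
          unfold MeanBound Law dp
          have e4 : ∀ y : ℝ, max |traceSum m S α y - ρ * Real.log (Real.log y)| 0 =
              |-(Pl (NQ S) (al m S α) y + ρ * Real.log (Real.log y))| := by
            intro y
            rw [max_eq_left (abs_nonneg _), traceSum_eq]
            congr 1
            ring
          simp only [e4]
        have e5 : (Law fun y => |dp m S α ρ y|) ↔
            Law fun y => |dev (NQ S) (al m S α) ρ y| := by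
          have e8 : (Law fun y => |dp m S α ρ y|) ↔ (Law fun y => max (dp m S α ρ y) 0) ∧
              Law fun y => max (-dp m S α ρ y) 0 := law_abs (devP_bm (par_sys hp) ρ)
          rw [e8, law_abs (dev_bm (par_sys hp) ρ)]
          have e6 := law_pl hp ρ 1 abs_one
          have e7 := law_pl hp ρ (-1) (by rw [abs_neg, abs_one])
          simp only [one_mul] at e6
          simp only [neg_one_mul] at e7
          exact and_congr e6 e7
        rw [e3, e5, h5, hz]
        rfl

end Pool.Agent.Results.MP_29b22a_nt.OneSidedTraceLaws
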